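import Pool.Agent.H683.CV.Lem

/-!
# Budgeted coloring: the necessary condition (helper86, for helper683)
-/

set_option autoImplicit false

namespace Pool.Agent.H86.CV

open Pool.Agent.H683.CV

theorem HALL1 : S_HALL1 := by
  intro V K P I _ _ _ _ _ _ _ _ r al y b f hal hinj hy hb A T J
  set W : Finset V := Finset.univ.filter
    (fun v => r v ∈ T ∧ ∀ j, al v j = true → j ∈ J (r v)) with hW
  have hWm : ∀ v, v ∈ W ↔ r v ∈ T ∧ ∀ j, al v j = true → j ∈ J (r v) := by
    intro v
    rw [hW, Finset.mem_filter]
    exact ⟨fun h => h.2, fun h => ⟨Finset.mem_univ _, h⟩⟩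
  have h1 : ∑ k ∈ T, (Finset.univ.filter
      fun v => r v = k ∧ ∀ j, al v j = true → j ∈ J k).card = W.card := by
    rw [Finset.card_eq_sum_card_fiberwise (f := r) (t := T) (s := W)
      (fun v hv => ((hWm v).1 hv).1)]
    refine Finset.sum_congr rfl fun k hk => ?_
    congr 1
    ext v
    rw [Finset.mem_filter, Finset.mem_filter, hWm]
    constructor
    · rintro ⟨-, rfl, h⟩
      exact ⟨⟨hk, h⟩, rfl⟩
    · rintro ⟨⟨_, h⟩, rfl⟩
      exact ⟨Finset.mem_univ _, rfl, h⟩
  have h2 : W.card = ∑ j : P, (W.filter (fun v => f v = Sum.inl j)).card +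
      ∑ i : I, (W.filter (fun v => f v = Sum.inr i)).card := by
    rw [Finset.card_eq_sum_card_fiberwise (f := f) (t := Finset.univ) (s := W)
      (fun v _ => Finset.mem_coe.2 (Finset.mem_univ _)), Fintype.sum_sum_type]
  have h3 : ∀ i : I, (W.filter (fun v => f v = Sum.inr i)).card ≤ min (b i) T.card := by
    intro i
    refine le_min ?_ ?_
    · refine le_trans (Finset.card_le_card ?_) (hb i)
      intro v hv
      rw [Finset.mem_filter] at hv ⊢
      exact ⟨Finset.mem_univ _, hv.2⟩
    · refine Finset.card_le_card_of_injOn r ?_ ?_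
      · intro v hv
        rw [Finset.mem_coe, Finset.mem_filter] at hv
        exact ((hWm v).1 hv.1).1
      · intro u hu v hv huv
        rw [Finset.mem_coe, Finset.mem_filter] at hu hv
        by_contra hne
        exact hinj u v hne huv (hu.2.trans hv.2.symm)
  have h4 : ∀ j : P, (W.filter (fun v => f v = Sum.inl j)).card ≤ y j := by
    intro j
    refine le_trans (Finset.card_le_card ?_) (hy j)
    intro v hv
    rw [Finset.mem_filter] at hv ⊢
    exact ⟨Finset.mem_univ _, hv.2⟩
  have h5 : ∀ j : P, (W.filter (fun v => f v = Sum.inl j)).card ≤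
      (T.filter (fun k => j ∈ J k)).card := by
    intro j
    refine Finset.card_le_card_of_injOn r ?_ ?_
    · intro v hv
      rw [Finset.mem_coe, Finset.mem_filter] at hv
      rw [Finset.mem_coe, Finset.mem_filter]
      exact ⟨((hWm v).1 hv.1).1, ((hWm v).1 hv.1).2 j (hal v j hv.2)⟩
    · intro u hu v hv huv
      rw [Finset.mem_coe, Finset.mem_filter] at hu hv
      by_contra hne
      exact hinj u v hne huv (hu.2.trans hv.2.symm)
  have h6 : ∑ j : P, (W.filter (fun v => f v = Sum.inl j)).card ≤
      ∑ j ∈ A, y j + ∑ k ∈ T, (J k \ A).card := by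
    rw [← Finset.sum_add_sum_compl A]
    refine add_le_add (Finset.sum_le_sum fun j _ => h4 j) ?_
    refine (Finset.sum_le_sum fun j _ => h5 j).trans (le_of_eq ?_)
    simp only [Finset.card_filter]
    rw [Finset.sum_comm]
    refine Finset.sum_congr rfl fun k _ => ?_
    rw [← Finset.card_filter]
    congr 1
    ext j
    rw [Finset.mem_filter, Finset.mem_compl, Finset.mem_sdiff]
    exact and_comm
  have h7 : ∑ i : I, (W.filter (fun v => f v = Sum.inr i)).card ≤ ∑ i, min (b i) T.card :=
    Finset.sum_le_sum fun i _ => h3 i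
  rw [h1, h2]
  omega

end Pool.Agent.H86.CV
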