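import Pool.Agent.H979.BK.Stm

/-!
# Project BK: Poissonization and mixing times (leaf FINAL)
-/

set_option autoImplicit false
set_option linter.unusedSectionVars false

open Filter Topology Finset Pool.Agent.H979.BK

namespace Pool.Agent.H86

namespace BKF

/-- the weights of the Poisson distribution -/
noncomputable def w (t : ℝ) (m : ℕ) : ℝ := Real.exp (-t) * t ^ m / (m.factorial : ℝ)

lemma w_nonneg {t : ℝ} (ht : 0 ≤ t) (m : ℕ) : 0 ≤ w t m := by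
  unfold w
  positivity

/-- the indicator of the tail -/
noncomputable def ind (t a : ℝ) (m : ℕ) : ℝ := if a ≤ |(m : ℝ) - t| then 1 else 0

lemma ind_nonneg (t a : ℝ) (m : ℕ) : 0 ≤ ind t a m := by
  unfold ind
  split_ifs <;> norm_num

lemma ind_le (t a : ℝ) (m : ℕ) : ind t a m ≤ 1 := by
  unfold ind
  split_ifs <;> norm_num

lemma pois (hP : S_POIS) {t a : ℝ} (ht : 0 ≤ t) (ha : 0 < a) :
    Summable (w t) ∧ ∑' m, w t m = 1 ∧ ∑' m, w t m * ind t a m ≤ t / a ^ 2 := by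
  obtain ⟨h1, h2, h3⟩ := hP t a ht ha
  exact ⟨h1, h2, h3⟩

lemma summ (hP : S_POIS) {t : ℝ} (ht : 0 ≤ t) (e : ℕ → ℝ) (he : ∀ m, 0 ≤ e m ∧ e m ≤ 1) :
    Summable (fun m => w t m * e m) := by
  obtain ⟨h1, -, -⟩ := pois hP ht one_pos
  exact Summable.of_nonneg_of_le (fun m => mul_nonneg (w_nonneg ht m) (he m).1)
    (fun m => mul_le_of_le_one_right (w_nonneg ht m) (he m).2) h1

lemma law01 (hP : S_POIS) {t : ℝ} (ht : 0 ≤ t) (e : ℕ → ℝ) (he : ∀ m, 0 ≤ e m ∧ e m ≤ 1) :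
    0 ≤ ∑' m, w t m * e m ∧ ∑' m, w t m * e m ≤ 1 := by
  obtain ⟨h1, h2, -⟩ := pois hP ht one_pos
  refine ⟨tsum_nonneg fun m => mul_nonneg (w_nonneg ht m) (he m).1, ?_⟩
  rw [← h2]
  exact (summ hP ht e he).tsum_le_tsum
    (fun m => mul_le_of_le_one_right (w_nonneg ht m) (he m).2) h1

/-- lower bound -/
lemma low (hP : S_POIS) {t a : ℝ} (ht : 0 ≤ t) (ha : 0 < a) (e : ℕ → ℝ)
    (he : ∀ m, 0 ≤ e m ∧ e m ≤ 1) {b ε : ℝ} (hb : b ≤ 1) (hε : 0 ≤ ε)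
    (h : ∀ m : ℕ, |(m : ℝ) - t| < a → b - ε ≤ e m) :
    b - ε - t / a ^ 2 ≤ ∑' m, w t m * e m := by
  obtain ⟨h1, h2, h3⟩ := pois hP ht ha
  have hi : Summable (fun m => w t m * ind t a m) :=
    summ hP ht (ind t a) fun m => ⟨ind_nonneg t a m, ind_le t a m⟩
  have hc : Summable (fun m => w t m * (b - ε)) := h1.mul_right _
  have h4 : ∑' m, (w t m * (b - ε) - w t m * ind t a m) ≤ ∑' m, w t m * e m := by
    refine (hc.sub hi).tsum_le_tsum (fun m => ?_) (summ hP ht e he)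
    rw [← mul_sub]
    refine mul_le_mul_of_nonneg_left ?_ (w_nonneg ht m)
    unfold ind
    split_ifs with h5
    · linarith [(he m).1]
    · rw [not_le] at h5
      linarith [h m h5]
  rw [hc.tsum_sub hi, tsum_mul_right, h2, one_mul] at h4
  linarith

/-- two sided bound -/
lemma both (hP : S_POIS) {t a : ℝ} (ht : 0 ≤ t) (ha : 0 < a) (e : ℕ → ℝ)
    (he : ∀ m, 0 ≤ e m ∧ e m ≤ 1) {s ε : ℝ} (hs : 0 ≤ s ∧ s ≤ 1) (hε : 0 ≤ ε)
    (h : ∀ m : ℕ, |(m : ℝ) - t| < a → |e m - s| ≤ ε) :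
    |∑' m, w t m * e m - s| ≤ ε + t / a ^ 2 := by
  obtain ⟨h1, h2, h3⟩ := pois hP ht ha
  have k1 := low hP ht ha e he hs.2 hε fun m hm => by
    have := abs_le.1 (h m hm)
    linarith [this.1]
  have k2 := low hP ht ha (fun m => 1 - e m) (fun m => ⟨by linarith [(he m).2], by linarith [(he m).1]⟩)
    (b := 1 - s) (by linarith [hs.1]) hε fun m hm => by
    have := abs_le.1 (h m hm)
    linarith [this.2]
  have k3 : ∑' m, w t m * (1 - e m) = 1 - ∑' m, w t m * e m := by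
    have k4 : ∑' m, (w t m - w t m * e m) = ∑' m, w t m - ∑' m, w t m * e m :=
      h1.tsum_sub (summ hP ht e he)
    rw [h2] at k4
    rw [← k4]
    refine tsum_congr fun m => ?_
    ring
  rw [k3] at k2
  rw [abs_le]
  constructor <;> linarith

/-- the probabilities of the counts -/
noncomputable def pe {d n : ℕ} (μ : Equiv.Perm (Fin d) → ℝ) (k : ℕ) (c : Ball d n → Fin d)
    (F : Set (Fin d → Fin d → ℕ)) (m : ℕ) : ℝ :=
  E μ k m (fun u => F.indicator (fun _ => (1 : ℝ)) (cnt c u))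

lemma pe01 (h1 : S_A1) {d n : ℕ} {μ : Equiv.Perm (Fin d) → ℝ} (hμ : IsProb μ) {k : ℕ} (hk : k ≤ n)
    (c : Ball d n → Fin d) (F : Set (Fin d → Fin d → ℕ)) (m : ℕ) :
    0 ≤ pe μ k c F m ∧ pe μ k c F m ≤ 1 := by
  obtain ⟨p, p0, p1, -, p3⟩ := h1 d n k μ hμ hk m
  unfold pe
  rw [p3]
  have h0 : ∀ u : Ball d n → Fin d, 0 ≤ F.indicator (fun _ => (1 : ℝ)) (cnt c u) ∧
      F.indicator (fun _ => (1 : ℝ)) (cnt c u) ≤ 1 := by
    intro u
    unfold Set.indicator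
    split_ifs <;> norm_num
  constructor
  · exact Finset.sum_nonneg fun u _ => mul_nonneg (p0 u) (h0 u).1
  · refine le_trans ?_ p1.le
    exact Finset.sum_le_sum fun u _ => mul_le_of_le_one_right (p0 u) (h0 u).2

lemma law_eq {d n : ℕ} (μ : Equiv.Perm (Fin d) → ℝ) (k : ℕ) (c : Ball d n → Fin d)
    (t : ℝ) (F : Set (Fin d → Fin d → ℕ)) : law μ k c t F = ∑' m, w t m * pe μ k c F m := rfl

open Classical in
lemma stat01 (d n : ℕ) (F : Set (Fin d → Fin d → ℕ)) : 0 ≤ stat d n F ∧ stat d n F ≤ 1 := by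
  have h0 : ∀ c : Ball d n → Fin d, 0 ≤ F.indicator (fun _ => (1 : ℝ)) (cnt c Prod.fst) ∧
      F.indicator (fun _ => (1 : ℝ)) (cnt c Prod.fst) ≤ 1 := by
    intro u
    unfold Set.indicator
    split_ifs <;> norm_num
  unfold stat
  constructor
  · exact div_nonneg (Finset.sum_nonneg fun c _ => (h0 c).1) (Nat.cast_nonneg _)
  · refine div_le_one_of_le₀ ?_ (Nat.cast_nonneg _)
    refine (Finset.sum_le_sum fun c _ => (h0 c).2).trans ?_
    rw [Finset.sum_const, nsmul_eq_mul, mul_one]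

lemma bal_fst (d n : ℕ) : Bal (Prod.fst : Ball d n → Fin d) := by
  intro i
  have h : (univ.filter fun b : Ball d n => b.1 = i) = ({i} : Finset (Fin d)) ×ˢ (univ : Finset (Fin n)) := by
    ext b
    simp only [mem_filter, mem_univ, true_and, mem_product, mem_singleton, and_true]
  rw [h, card_product, card_singleton, card_univ, Fintype.card_fin, one_mul]

section dm
variable {d n : ℕ} {μ : Equiv.Perm (Fin d) → ℝ} {k : ℕ}

lemma term_le (h1 : S_A1) (hP : S_POIS) (hμ : IsProb μ) (hk : k ≤ n) {t : ℝ} (ht : 0 ≤ t)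
    (c : Ball d n → Fin d) (F : Set (Fin d → Fin d → ℕ)) : |law μ k c t F - stat d n F| ≤ 1 := by
  have k1 := law01 hP ht (pe μ k c F) (pe01 h1 hμ hk c F)
  have k2 := stat01 d n F
  rw [law_eq, abs_le]
  constructor <;> linarith [k1.1, k1.2, k2.1, k2.2]

lemma le_dmax (h1 : S_A1) (hP : S_POIS) (hμ : IsProb μ) (hk : k ≤ n) {t : ℝ} (ht : 0 ≤ t)
    (c : Ball d n → Fin d) (hc : Bal c) (F : Set (Fin d → Fin d → ℕ)) :
    |law μ k c t F - stat d n F| ≤ dmax μ n k t := by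
  unfold dmax
  have hb : BddAbove (Set.range fun p : {c : Ball d n → Fin d // Bal c} × Set (Fin d → Fin d → ℕ) =>
      |law μ k p.1.1 t p.2 - stat d n p.2|) := by
    refine ⟨1, ?_⟩
    rintro _ ⟨p, rfl⟩
    exact term_le h1 hP hμ hk ht p.1.1 p.2
  exact le_ciSup hb (⟨⟨c, hc⟩, F⟩ : {c : Ball d n → Fin d // Bal c} × Set (Fin d → Fin d → ℕ))

lemma dmax_le {t b : ℝ}
    (h : ∀ c : Ball d n → Fin d, Bal c → ∀ F : Set (Fin d → Fin d → ℕ),
      |law μ k c t F - stat d n F| ≤ b) : dmax μ n k t ≤ b := by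
  unfold dmax
  have : Nonempty ({c : Ball d n → Fin d // Bal c} × Set (Fin d → Fin d → ℕ)) :=
    ⟨⟨⟨Prod.fst, bal_fst d n⟩, ∅⟩⟩
  exact ciSup_le fun p => h p.1.1 p.1.2 p.2

end dm

/-- the cutoff time -/
noncomputable def TT {d : ℕ} (μ : Equiv.Perm (Fin d) → ℝ) (k : ℕ → ℕ) (n : ℕ) : ℝ :=
  n * Real.log n / (2 * k n * gap μ)

lemma TT_top {d : ℕ} {μ : Equiv.Perm (Fin d) → ℝ} (hg : 0 < gap μ) {k : ℕ → ℕ}
    (hk : ∀ n, 1 ≤ n → 1 ≤ k n ∧ k n ≤ n) : Tendsto (TT μ k) atTop atTop := by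
  have h1 : Tendsto (fun n : ℕ => Real.log n / (2 * gap μ)) atTop atTop :=
    (Real.tendsto_log_atTop.comp tendsto_natCast_atTop_atTop).atTop_div_const (by positivity)
  refine tendsto_atTop_mono' atTop ?_ h1
  filter_upwards [eventually_ge_atTop 1] with n hn
  obtain ⟨h2, h3⟩ := hk n hn
  have h4 : (1 : ℝ) ≤ k n := by exact_mod_cast h2
  have h5 : (k n : ℝ) ≤ n := by exact_mod_cast h3
  have h6 : 0 ≤ Real.log n := Real.log_natCast_nonneg n
  unfold TT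
  rw [div_le_div_iff₀ (by positivity) (by positivity)]
  nlinarith [mul_le_mul_of_nonneg_left h5 (mul_nonneg h6 hg.le)]

theorem upper (h1 : S_A1) (hU : S_UPPER) (hP : S_POIS) {d : ℕ} {μ : Equiv.Perm (Fin d) → ℝ}
    (hd : 2 ≤ d) (hμ : IsProb μ) (hI : Irred μ) (hg : 0 < gap μ) {k : ℕ → ℕ}
    (hk : ∀ n, 1 ≤ n → 1 ≤ k n ∧ k n ≤ n)
    (hk0 : Tendsto (fun n => (k n : ℝ) / n) atTop (𝓝 0)) {η ε : ℝ} (hη : 0 < η) (hη1 : η < 1)
    (hε : 0 < ε) : ∀ᶠ n : ℕ in atTop, 0 ≤ (1 + 2 * η) * TT μ k n ∧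
      dmax μ n (k n) ((1 + 2 * η) * TT μ k n) ≤ ε := by
  have hT := TT_top hg hk
  filter_upwards [hU d μ hd hμ hI k hk hk0 η (ε / 2) hη hη1 (by positivity),
    eventually_ge_atTop 1, hT.eventually (eventually_ge_atTop (1 : ℝ)),
    hT.eventually (eventually_ge_atTop ((1 + 2 * η) / η ^ 2 * (2 / ε)))] with n hn hn1 hT1 hT2
  have hT0 : 0 < TT μ k n := by linarith
  have ht : 0 ≤ (1 + 2 * η) * TT μ k n := by positivity
  refine ⟨ht, dmax_le fun c hc F => ?_⟩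
  rw [law_eq]
  have h3 := both hP ht (a := η * TT μ k n) (by positivity) (pe μ (k n) c F)
    (pe01 h1 hμ (hk n hn1).2 c F) (stat01 d n F) (ε := ε / 2) (by positivity) fun m hm => by
      refine hn m ?_ c hc F
      have h4 := (abs_lt.1 hm).1
      show (1 + η) * TT μ k n ≤ m
      nlinarith
  refine h3.trans ?_
  have h5 : (1 + 2 * η) * TT μ k n / (η * TT μ k n) ^ 2 ≤ ε / 2 := by
    rw [div_le_iff₀ (by positivity)]
    have h6 : (1 + 2 * η) / η ^ 2 * (2 / ε) * (η ^ 2 * (ε / 2)) = 1 + 2 * η := by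
      field_simp
    have h7 : 1 + 2 * η ≤ TT μ k n * (η ^ 2 * (ε / 2)) := by
      rw [← h6]
      exact mul_le_mul_of_nonneg_right hT2 (by positivity)
    nlinarith [mul_le_mul_of_nonneg_right h7 hT0.le]
  linarith

theorem lower (h1 : S_A1) (hL : S_LOWER) (hP : S_POIS) {d : ℕ} {μ : Equiv.Perm (Fin d) → ℝ}
    (hd : 2 ≤ d) (hμ : IsProb μ) (hI : Irred μ) (hg : 0 < gap μ) {k : ℕ → ℕ}
    (hk : ∀ n, 1 ≤ n → 1 ≤ k n ∧ k n ≤ n)
    (hk0 : Tendsto (fun n => (k n : ℝ) / n) atTop (𝓝 0)) {η ε : ℝ} (hη : 0 < η) (hη1 : η < 1)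
    (hε : ε < 1) : ∀ᶠ n : ℕ in atTop, ∀ t : ℝ, 0 ≤ t → t ≤ (1 - 2 * η) * TT μ k n →
      ε < dmax μ n (k n) t := by
  have hT := TT_top hg hk
  have hδ : 0 < (1 - ε) / 4 := by linarith
  filter_upwards [hL d μ hd hμ hI k hk hk0 η ((1 - ε) / 4) hη hη1 hδ,
    eventually_ge_atTop 1, hT.eventually (eventually_ge_atTop (1 : ℝ)),
    hT.eventually (eventually_ge_atTop (1 / η ^ 2 * (4 / (1 - ε))))] with n hn hn1 hT1 hT2 t ht0 ht
  obtain ⟨F, hF1, hF2⟩ := hn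
  have hT0 : 0 < TT μ k n := by linarith
  have h3 := low hP ht0 (a := η * TT μ k n) (by positivity) (pe μ (k n) Prod.fst F)
    (pe01 h1 hμ (hk n hn1).2 Prod.fst F) (b := 1) (ε := (1 - ε) / 4) le_rfl hδ.le fun m hm => by
      refine hF2 m ?_
      have h4 := (abs_lt.1 hm).2
      show (m : ℝ) ≤ (1 - η) * TT μ k n
      nlinarith
  have h4 := le_dmax h1 hP hμ (hk n hn1).2 ht0 Prod.fst (bal_fst d n) F
  rw [law_eq] at h4
  have h5 := (le_abs_self _).trans h4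
  have h6 : t / (η * TT μ k n) ^ 2 ≤ (1 - ε) / 4 := by
    rw [div_le_iff₀ (by positivity)]
    have h6 : 1 / η ^ 2 * (4 / (1 - ε)) * (η ^ 2 * ((1 - ε) / 4)) = 1 := by
      have : 1 - ε ≠ 0 := by linarith
      field_simp
    have h7 : 1 ≤ TT μ k n * (η ^ 2 * ((1 - ε) / 4)) :=
      h6.symm.le.trans (mul_le_mul_of_nonneg_right hT2 (by positivity))
    have h8 : t ≤ TT μ k n := by nlinarith
    nlinarith [mul_le_mul_of_nonneg_right h7 hT0.le]
  linarith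

theorem cutoff (h1 : S_A1) (hL : S_LOWER) (hU : S_UPPER) (hP : S_POIS) {d : ℕ}
    {μ : Equiv.Perm (Fin d) → ℝ}
    (hd : 2 ≤ d) (hμ : IsProb μ) (hI : Irred μ) (hg : 0 < gap μ) {k : ℕ → ℕ}
    (hk : ∀ n, 1 ≤ n → 1 ≤ k n ∧ k n ≤ n)
    (hk0 : Tendsto (fun n => (k n : ℝ) / n) atTop (𝓝 0)) {ε : ℝ} (hε : 0 < ε) (hε1 : ε < 1) :
    Tendsto (fun n : ℕ => tmix μ n (k n) ε / TT μ k n) atTop (𝓝 1) := by
  rw [Metric.tendsto_atTop']
  intro ρ hρ
  obtain ⟨η, hη, hη1, hηρ⟩ : ∃ η : ℝ, 0 < η ∧ η < 1 ∧ 2 * η < ρ :=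
    ⟨min (1 / 2) (ρ / 4), by positivity, lt_of_le_of_lt (min_le_left _ _) (by norm_num), by
      have := min_le_right (1 / 2) (ρ / 4)
      linarith⟩
  have h5 := (upper h1 hU hP hd hμ hI hg hk hk0 hη hη1 hε).and
    ((lower h1 hL hP hd hμ hI hg hk hk0 hη hη1 hε1).and
      ((TT_top hg hk).eventually (eventually_ge_atTop (1 : ℝ))))
  obtain ⟨N, hN⟩ := eventually_atTop.1 h5
  refine ⟨N, fun n hn => ?_⟩
  obtain ⟨⟨h6, h7⟩, h8, h9⟩ := hN n hn.le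
  have hT0 : 0 < TT μ k n := by linarith
  have h10 : tmix μ n (k n) ε ≤ (1 + 2 * η) * TT μ k n :=
    csInf_le ⟨0, fun t ht => ht.1⟩ ⟨h6, h7⟩
  have h11 : (1 - 2 * η) * TT μ k n ≤ tmix μ n (k n) ε := by
    refine le_csInf ⟨_, ⟨h6, h7⟩⟩ fun t ht => ?_
    by_contra hcon
    rw [not_le] at hcon
    exact absurd ht.2 (not_le.2 (h8 t ht.1 hcon.le))
  rw [Real.dist_eq, abs_lt]
  constructor
  · have : (1 - 2 * η) ≤ tmix μ n (k n) ε / TT μ k n := (le_div_iff₀ hT0).2 h11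
    linarith
  · have : tmix μ n (k n) ε / TT μ k n ≤ 1 + 2 * η := (div_le_iff₀ hT0).2 h10
    linarith

end BKF

theorem bk_final (h1 : S_A1) (hG : S_GAP) (hL : S_LOWER) (hU : S_UPPER) (hP : S_POIS) :
    S_FINAL := by
  intro d μ hd hμ hI
  have hg := (hG d μ hd hμ hI).1
  refine ⟨hg, fun k hk hk0 => ?_⟩
  have hmain : ∀ ε : ℝ, 0 < ε → ε < 1 →
      Tendsto (fun n : ℕ => tmix μ n (k n) ε / BKF.TT μ k n) atTop (𝓝 1) :=
    fun ε hε hε1 => BKF.cutoff h1 hL hU hP hd hμ hI hg hk hk0 hε hε1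
  have hTpos : ∀ᶠ n : ℕ in atTop, (1 : ℝ) ≤ BKF.TT μ k n :=
    (BKF.TT_top hg hk).eventually (eventually_ge_atTop 1)
  refine ⟨hmain, fun ε ε' hε hε1 hε' hε1' => ?_, fun ε hε hε1 => ?_⟩
  · have hk1 : ∀ n, 1 ≤ n → 1 ≤ (fun _ : ℕ => 1) n ∧ (fun _ : ℕ => 1) n ≤ n :=
      fun n hn => ⟨le_rfl, hn⟩
    have hk10 : Tendsto (fun n : ℕ => (((fun _ : ℕ => 1) n : ℕ) : ℝ) / n) atTop (𝓝 0) := by
      simpa using tendsto_one_div_atTop_nhds_zero_nat (𝕜 := ℝ)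
    have h2 := BKF.cutoff h1 hL hU hP hd hμ hI hg hk1 hk10 hε' hε1'
    have h3 := (hmain ε hε hε1).div h2 one_ne_zero
    rw [div_one] at h3
    refine h3.congr' ?_
    have hT1 : ∀ᶠ n : ℕ in atTop, (1 : ℝ) ≤ BKF.TT μ (fun _ => 1) n :=
      (BKF.TT_top hg hk1).eventually (eventually_ge_atTop 1)
    filter_upwards [hTpos, hT1, eventually_ge_atTop 1] with n hn1 hn2 hn3
    have hkn : (1 : ℝ) ≤ k n := by exact_mod_cast (hk n hn3).1
    have h4 : BKF.TT μ (fun _ => 1) n = BKF.TT μ k n * k n := by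
      unfold BKF.TT
      have : (k n : ℝ) ≠ 0 := by positivity
      field_simp
      push_cast
      ring
    have h5 : BKF.TT μ k n ≠ 0 := by positivity
    have h6 : (k n : ℝ) ≠ 0 := by positivity
    show tmix μ n (k n) ε / BKF.TT μ k n / (tmix μ n 1 ε' / BKF.TT μ (fun _ => 1) n) = _
    rw [h4]
    by_cases h7 : tmix μ n 1 ε' = 0
    · rw [h7]; simp
    · field_simp
  · have h3 := (hmain ε hε hε1).div (hmain (1 - ε) (by linarith) (by linarith)) one_ne_zero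
    rw [div_one] at h3
    refine h3.congr' ?_
    filter_upwards [hTpos] with n hn1
    have h5 : BKF.TT μ k n ≠ 0 := by positivity
    show tmix μ n (k n) ε / BKF.TT μ k n / (tmix μ n (k n) (1 - ε) / BKF.TT μ k n) = _
    rw [div_div_div_cancel_right₀ h5]

end Pool.Agent.H86
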